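import Pool.Agent.Q80.KT.Stm

/-!
Job KT-BIG of project KT (helper80): large components in the critical window.
-/

set_option autoImplicit false

open Finset MeasureTheory Filter Topology
open scoped Classical ENNReal NNReal

namespace Q154.KT.BIG

open Pool.Agent.Q80.KT Pool.Agent.Q287.SR

/-- the parameter is a probability -/
lemma pN_ev (lam : ℝ) : ∀ᶠ n : ℕ in atTop, 0 ≤ pN lam n ∧ pN lam n ≤ 1 := by
  have h1 : Tendsto (fun n : ℕ => (n : ℝ) ^ ((1 : ℝ) / 3)) atTop atTop :=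
    (tendsto_rpow_atTop (by norm_num)).comp tendsto_natCast_atTop_atTop
  filter_upwards [h1.eventually_ge_atTop |lam|, eventually_ge_atTop 1,
    (tendsto_natCast_atTop_atTop (R := ℝ)).eventually_ge_atTop (1 + |lam|)] with n hn hn1 hn2
  have hn0 : (0 : ℝ) < n := by exact_mod_cast hn1
  have hn1' : (1 : ℝ) ≤ n := by exact_mod_cast hn1
  have e1 : (n : ℝ) ^ ((4 : ℝ) / 3) = n * (n : ℝ) ^ ((1 : ℝ) / 3) := by
    rw [← Real.rpow_one_add' hn0.le (by norm_num)]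
    norm_num
  have hq : (1 : ℝ) ≤ (n : ℝ) ^ ((1 : ℝ) / 3) := Real.one_le_rpow hn1' (by norm_num)
  have hq0 : (0 : ℝ) < (n : ℝ) ^ ((1 : ℝ) / 3) := by linarith
  have e2 : pN lam n = (1 + lam / (n : ℝ) ^ ((1 : ℝ) / 3)) / n := by
    unfold pN
    rw [e1]
    field_simp
  have hb : |lam / (n : ℝ) ^ ((1 : ℝ) / 3)| ≤ 1 := by
    rw [abs_div, abs_of_pos hq0, div_le_one hq0]
    exact hn
  have hb2 : |lam / (n : ℝ) ^ ((1 : ℝ) / 3)| ≤ |lam| := by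
    rw [abs_div, abs_of_pos hq0]
    exact div_le_self (abs_nonneg _) hq
  rw [e2]
  constructor
  · apply div_nonneg _ hn0.le
    linarith [(abs_le.1 hb).1]
  · rw [div_le_one hn0]
    linarith [(abs_le.1 hb2).2]

/-- Chebyshev -/
lemma cheb {n : ℕ} {p : ℝ} (h0 : 0 ≤ p) (h1 : p ≤ 1) (X : SimpleGraph (Fin n) → ℝ)
    (A : SimpleGraph (Fin n) → Prop) (hA : ∀ G, A G → X G = 0) :
    Pr n p A * (Ex n p X) ^ 2 ≤ Ex n p (fun G => X G ^ 2) - (Ex n p X) ^ 2 := by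
  have e1 : Ex n p (fun G => X G ^ 2) - (Ex n p X) ^ 2 =
      Ex n p (fun G => (X G ^ 2 + (-(2 * Ex n p X)) * X G) + (Ex n p X) ^ 2) := by
    rw [Ex_add, Ex_add, Ex_mul, Ex_const]
    ring
  have e2 : Pr n p A * (Ex n p X) ^ 2 = Ex n p (fun G => (Ex n p X) ^ 2 * ind (A G)) := by
    rw [Ex_mul]
    unfold Pr
    ring
  rw [e1, e2]
  refine Ex_mono h0 h1 fun G => ?_
  by_cases h : A G
  · rw [hA G h]
    simp [ind, h]
  · simp only [ind, h, if_false, mul_zero]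
    nlinarith [sq_nonneg (X G - Ex n p X)]

/-- no large component implies no large tree component -/
lemma XT_zero {n k : ℕ} (hk : 1 ≤ k) (G : SimpleGraph (Fin n))
    (h : ∀ v, (comp G v).card < k) : XT n k G = 0 := by
  unfold XT
  refine Finset.sum_eq_zero fun S _ => ?_
  split_ifs with hS
  · unfold ind
    rw [if_neg]
    rintro ⟨ht, -⟩
    have hne : S.Nonempty := Finset.card_pos.1 (by omega)
    obtain ⟨v, hv⟩ := hne
    have hsub : S ⊆ comp G v := by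
      intro w hw
      unfold comp
      rw [Finset.mem_filter]
      refine ⟨Finset.mem_univ _, ?_⟩
      have h1 := ht.1.preconnected ⟨v, hv⟩ ⟨w, hw⟩
      exact h1.map (SimpleGraph.Embedding.induce (S : Set (Fin n))).toHom
    have := Finset.card_le_card hsub
    have := h v
    omega
  · rfl

theorem t_BIG (h1 : S_FIRST) (h2 : S_SECOND) : S_BIG := by
  intro lam ε hε
  obtain ⟨c, hc, hF⟩ := h1 lam
  obtain ⟨C, hC, hS⟩ := h2 lam
  have hlim : Tendsto (fun δ : ℝ => δ ^ ((3 : ℝ) / 2) / c + (Real.exp (C * δ ^ 2) - 1)) (𝓝[>] 0)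
      (𝓝 0) := by
    have hcont : ContinuousAt (fun δ : ℝ => δ ^ ((3 : ℝ) / 2) / c + (Real.exp (C * δ ^ 2) - 1)) 0 := by
      have h3 : Continuous (fun δ : ℝ => δ ^ ((3 : ℝ) / 2)) :=
        Real.continuous_rpow_const (by norm_num)
      have h4 : Continuous (fun δ : ℝ => δ ^ ((3 : ℝ) / 2) / c + (Real.exp (C * δ ^ 2) - 1)) := by
        fun_prop
      exact h4.continuousAt
    have h5 := hcont.tendsto
    have e0 : (0 : ℝ) ^ ((3 : ℝ) / 2) / c + (Real.exp (C * 0 ^ 2) - 1) = 0 := by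
      rw [Real.zero_rpow (by norm_num)]
      simp
    rw [e0] at h5
    exact h5.mono_left nhdsWithin_le_nhds
  obtain ⟨δ, hδ, hδ0, hδ1⟩ : ∃ δ : ℝ, δ ^ ((3 : ℝ) / 2) / c + (Real.exp (C * δ ^ 2) - 1) < ε ∧
      0 < δ ∧ δ ≤ 1 := by
    have h6 := hlim.eventually_lt_const hε
    have h7 : ∀ᶠ δ : ℝ in 𝓝[>] 0, 0 < δ ∧ δ ≤ 1 :=
      (Ioc_mem_nhdsGT (by norm_num : (0 : ℝ) < 1))
    exact (h6.and h7).exists
  refine ⟨δ, hδ0, ?_⟩
  filter_upwards [hF δ hδ0 hδ1, hS δ hδ0 hδ1, pN_ev lam, eventually_ge_atTop 1] with n hn1 hn2 hp hn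
  obtain ⟨hp0, hp1⟩ := hp
  obtain ⟨k, hk⟩ : ∃ k, k = ⌈δ * (n : ℝ) ^ ((2 : ℝ) / 3)⌉₊ := ⟨_, rfl⟩
  rw [← hk] at hn1 hn2
  have hn0 : (0 : ℝ) < n := by exact_mod_cast hn
  have hpos : 0 < δ * (n : ℝ) ^ ((2 : ℝ) / 3) := mul_pos hδ0 (Real.rpow_pos_of_pos hn0 _)
  have hk1 : 1 ≤ k := by
    rw [hk]
    exact Nat.one_le_ceil_iff.2 hpos
  have hkey := cheb hp0 hp1 (XT n k)
    (fun G => ∀ v, ((comp G v).card : ℝ) < δ * (n : ℝ) ^ ((2 : ℝ) / 3)) (fun G hG => by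
      refine XT_zero hk1 G fun v => ?_
      rw [hk]
      exact Nat.lt_ceil.2 (hG v))
  obtain ⟨μ, hμ⟩ : ∃ μ, μ = Ex n (pN lam n) (XT n k) := ⟨_, rfl⟩
  obtain ⟨P, hP⟩ : ∃ P, P = Pr n (pN lam n)
    (fun G => ∀ v, ((comp G v).card : ℝ) < δ * (n : ℝ) ^ ((2 : ℝ) / 3)) := ⟨_, rfl⟩
  rw [← hμ] at hn1 hn2 hkey
  rw [← hP] at hkey ⊢
  have hd0 : 0 < δ ^ ((3 : ℝ) / 2) := Real.rpow_pos_of_pos hδ0 _
  have e3 : δ ^ (-(3 : ℝ) / 2) = 1 / δ ^ ((3 : ℝ) / 2) := by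
    rw [neg_div, Real.rpow_neg hδ0.le, one_div]
  rw [e3] at hn1
  have hμ0 : 0 < μ := lt_of_lt_of_le (by positivity) hn1
  have h8 : 1 / μ ≤ δ ^ ((3 : ℝ) / 2) / c := by
    rw [div_le_div_iff₀ hμ0 hc, one_mul]
    have h9 : c * (1 / δ ^ ((3 : ℝ) / 2)) * δ ^ ((3 : ℝ) / 2) ≤ μ * δ ^ ((3 : ℝ) / 2) :=
      mul_le_mul_of_nonneg_right hn1 hd0.le
    have h10 : c * (1 / δ ^ ((3 : ℝ) / 2)) * δ ^ ((3 : ℝ) / 2) = c := by
      field_simp
    rw [h10] at h9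
    linarith
  have h11 : P * μ ^ 2 ≤ (1 / μ + (Real.exp (C * δ ^ 2) - 1)) * μ ^ 2 := by
    have e4 : (1 / μ + (Real.exp (C * δ ^ 2) - 1)) * μ ^ 2 =
        μ + μ ^ 2 * Real.exp (C * δ ^ 2) - μ ^ 2 := by
      field_simp
      ring
    rw [e4]
    linarith
  have h12 : P ≤ 1 / μ + (Real.exp (C * δ ^ 2) - 1) :=
    le_of_mul_le_mul_right h11 (by positivity)
  linarith

end Q154.KT.BIG
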