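import Pool.Agent.Q80.KT.Stm

/-!
Job KT-ONE of project KT (helper80): the one-sided bound for the exploration of a ball.
-/

set_option autoImplicit false

open Finset MeasureTheory Filter Topology
open scoped Classical ENNReal NNReal

namespace Q154.KT.ONE

open Pool.Agent.Q80.KT Pool.Agent.Q287.SR

lemma ind_nonneg (P : Prop) : 0 ≤ ind P := by
  unfold ind
  split_ifs <;> norm_num

lemma ind_mono {P Q : Prop} (h : P → Q) : ind P ≤ ind Q := by
  unfold ind
  by_cases hP : P
  · rw [if_pos hP, if_pos (h hP)]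
  · rw [if_neg hP]
    split_ifs <;> norm_num

/-- diagonal pairs do not matter -/
lemma depOn_nondiag {n : ℕ} {D : Set (Sym2 (Fin n))} {f : SimpleGraph (Fin n) → ℝ} (h : DepOn D f) :
    DepOn (D ∩ {e | ¬ e.IsDiag}) f := by
  intro G G' hG
  refine h G G' fun e he => ?_
  by_cases hd : e.IsDiag
  · exact ⟨fun h1 => absurd hd (G.not_isDiag_of_mem_edgeSet h1),
      fun h1 => absurd hd (G'.not_isDiag_of_mem_edgeSet h1)⟩
  · exact hG e ⟨he, hd⟩

lemma disj {n : ℕ} {S S' : Finset (Fin n)} {x : Fin n} (hSS : S' ⊆ S) (hx' : x ∉ S') :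
    Disjoint (DS S S' ∩ {e | ¬ e.IsDiag})
      ({e | ∀ a ∈ e, a ∈ ({y | y ∉ S} ∪ {x} : Set (Fin n))} ∩ {e | ¬ e.IsDiag}) := by
  rw [Set.disjoint_left]
  rintro e ⟨h1, hd⟩ ⟨h2, -⟩
  have key : ∀ a ∈ e, a ∈ S → a = x := by
    intro a ha haS
    rcases h2 a ha with h3 | h3
    · exact absurd haS h3
    · exact h3
  rcases h1 with h1 | ⟨a, ha, haS⟩
  · apply hd
    induction e using Sym2.ind with
    | _ a b =>
      have e1 := key a (Sym2.mem_mk_left a b) (h1 a (Sym2.mem_mk_left a b))
      have e2 := key b (Sym2.mem_mk_right a b) (h1 b (Sym2.mem_mk_right a b))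
      rw [Sym2.mk_isDiag_iff, e1, e2]
  · have e1 := key a ha (hSS haS)
    exact hx' (e1 ▸ haS)

theorem t_ONE (h1 : S_IND) (h2 : S_DEP) (h3 : S_BM) (h4 : S_EXIT) (h5 : S_RU) (h6 : S_TAU) :
    S_ONE := by
  intro n p v w r f hp0 hp1 hr hf hBM
  obtain ⟨T, hT⟩ : ∃ T : Finset (Fin n) → Finset (Fin n) → SimpleGraph (Fin n) → ℝ,
      T = fun S S' G => f G * ind (ball G v r = S ∧ ball G v (r - 1) = S') := ⟨_, rfl⟩
  have hT0 : ∀ S S' G, 0 ≤ T S S' G := by
    intro S S' G
    rw [hT]
    exact mul_nonneg (hf G) (ind_nonneg _)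
  have hsph := (h3 n v r hr).1
  have hsub : ∀ G : SimpleGraph (Fin n), ball G v (r - 1) ⊆ ball G v r := by
    intro G y hy
    unfold ball at hy ⊢
    rw [Finset.mem_filter] at hy ⊢
    exact ⟨hy.1, hy.2.1, hy.2.2.trans (Nat.sub_le r 1)⟩
  obtain ⟨Ts, hTs⟩ : ∃ Ts : Finset (Finset (Fin n) × Finset (Fin n) × Fin n),
      Ts = univ.filter (fun t => t.2.2 ∈ t.1 \ t.2.1) := ⟨_, rfl⟩
  have hτ0 : ∀ x y : Fin n, x ≠ y → 0 ≤ tau n p := by
    intro x y hxy
    rw [← (h6 n p).1 x y hxy]
    exact Ex_nonneg hp0 hp1 fun G => ind_nonneg _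
  -- pointwise bound
  have hpt : ∀ G : SimpleGraph (Fin n), f G * ind (w ∉ ball G v r ∧ G.Reachable v w) ≤
      ∑ t ∈ Ts.filter (fun t => w ∉ t.1),
        T t.1 t.2.1 G * ind (RU ({y | y ∉ t.1} ∪ {t.2.2}) G t.2.2 w) := by
    intro G
    by_cases hG : w ∉ ball G v r ∧ G.Reachable v w
    · obtain ⟨x, hx, hRU⟩ := h4 n G v w r hr hG.2 hG.1
      rw [hsph G] at hx
      have hmem : ((ball G v r, ball G v (r - 1), x) : Finset (Fin n) × Finset (Fin n) × Fin n) ∈
          Ts.filter (fun t => w ∉ t.1) := by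
        rw [Finset.mem_filter, hTs, Finset.mem_filter]
        exact ⟨⟨Finset.mem_univ _, hx⟩, hG.1⟩
      refine le_trans ?_ (Finset.single_le_sum (f := fun t : Finset (Fin n) × Finset (Fin n) × Fin n =>
        T t.1 t.2.1 G * ind (RU ({y | y ∉ t.1} ∪ {t.2.2}) G t.2.2 w))
        (fun t _ => mul_nonneg (hT0 _ _ _) (ind_nonneg _)) hmem)
      simp only [hT]
      have e1 : ind (w ∉ ball G v r ∧ G.Reachable v w) = 1 := by
        unfold ind
        rw [if_pos hG]
      have e2 : ind (RU ({y | y ∉ ball G v r} ∪ {x}) G x w) = 1 := by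
        unfold ind
        rw [if_pos hRU]
      rw [e1, e2]
      simp [ind]
    · have e1 : ind (w ∉ ball G v r ∧ G.Reachable v w) = 0 := by
        unfold ind
        rw [if_neg hG]
      rw [e1, mul_zero]
      exact Finset.sum_nonneg fun t _ => mul_nonneg (hT0 _ _ _) (ind_nonneg _)
  -- each term
  have hterm : ∀ t ∈ Ts.filter (fun t => w ∉ t.1),
      Ex n p (fun G => T t.1 t.2.1 G * ind (RU ({y | y ∉ t.1} ∪ {t.2.2}) G t.2.2 w)) ≤
        Ex n p (T t.1 t.2.1) * tau n p := by
    intro t ht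
    rw [Finset.mem_filter, hTs, Finset.mem_filter, Finset.mem_sdiff] at ht
    obtain ⟨⟨-, hx, hx'⟩, hw⟩ := ht
    obtain ⟨S, S', x⟩ := t
    simp only at hx hx' hw ⊢
    have hxw : x ≠ w := fun h => hw (h ▸ hx)
    by_cases hSS : S' ⊆ S
    · have hd1 : DepOn (DS S S' ∩ {e | ¬ e.IsDiag}) (T S S') := by
        refine depOn_nondiag ?_
        rw [hT]
        exact h2 n v r f S S' hr hBM
      have hd2 := depOn_nondiag (h5 n x w ({y | y ∉ S} ∪ {x})).1
      rw [h1 n p _ _ (T S S') _ hd1 hd2 (disj hSS hx')]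
      refine mul_le_mul_of_nonneg_left ?_ (Ex_nonneg hp0 hp1 fun G => hT0 _ _ _)
      rw [← (h6 n p).1 x w hxw]
      exact Ex_mono hp0 hp1 fun G => ind_mono ((h5 n x w _).2.1 G)
    · have hz : ∀ G, T S S' G = 0 := by
        intro G
        rw [hT]
        simp only [ind]
        rw [if_neg, mul_zero]
        rintro ⟨e1, e2⟩
        exact hSS (e1 ▸ e2 ▸ hsub G)
      have e1 : Ex n p (fun G => T S S' G * ind (RU ({y | y ∉ S} ∪ {x}) G x w)) = 0 := by
        have : (fun G => T S S' G * ind (RU ({y | y ∉ S} ∪ {x}) G x w)) = fun _ => 0 := by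
          funext G
          rw [hz G, zero_mul]
        rw [this, Ex_const]
      rw [e1]
      exact mul_nonneg (Ex_nonneg hp0 hp1 fun G => hT0 _ _ _) (hτ0 x w hxw)
  -- the sum of all terms
  have hsum : ∀ G : SimpleGraph (Fin n), ∑ t ∈ Ts, T t.1 t.2.1 G = f G * (sph G v r).card := by
    intro G
    rw [hTs, Finset.sum_filter, Fintype.sum_prod_type]
    rw [Finset.sum_eq_single (ball G v r)]
    · rw [Fintype.sum_prod_type, Finset.sum_eq_single (ball G v (r - 1))]
      · rw [← Finset.sum_filter]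
        simp only [hT]
        have e1 : ind (True ∧ True) = 1 := by
          simp [ind]
        rw [e1, mul_one, Finset.sum_const, nsmul_eq_mul, hsph G, mul_comm]
        congr 3
        ext x
        simp
      · intro S' _ hne
        refine Finset.sum_eq_zero fun x _ => ?_
        have : T (ball G v r) S' G = 0 := by
          rw [hT]
          simp only [ind]
          rw [if_neg, mul_zero]
          exact fun h => hne h.2.symm
        simp only [this, ite_self]
      · intro h
        exact absurd (Finset.mem_univ _) h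
    · intro S _ hne
      refine Finset.sum_eq_zero fun x _ => ?_
      have : T S x.1 G = 0 := by
        rw [hT]
        simp only [ind]
        rw [if_neg, mul_zero]
        exact fun h => hne h.1.symm
      simp only [this, ite_self]
    · intro h
      exact absurd (Finset.mem_univ _) h
  calc Ex n p (fun G => f G * ind (w ∉ ball G v r ∧ G.Reachable v w))
      ≤ Ex n p (fun G => ∑ t ∈ Ts.filter (fun t => w ∉ t.1),
        T t.1 t.2.1 G * ind (RU ({y | y ∉ t.1} ∪ {t.2.2}) G t.2.2 w)) := Ex_mono hp0 hp1 hpt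
    _ = ∑ t ∈ Ts.filter (fun t => w ∉ t.1),
        Ex n p (fun G => T t.1 t.2.1 G * ind (RU ({y | y ∉ t.1} ∪ {t.2.2}) G t.2.2 w)) :=
      Ex_sum p _ _
    _ ≤ ∑ t ∈ Ts.filter (fun t => w ∉ t.1), Ex n p (T t.1 t.2.1) * tau n p :=
      Finset.sum_le_sum hterm
    _ ≤ ∑ t ∈ Ts, Ex n p (T t.1 t.2.1) * tau n p := by
      rcases (Ts.filter (fun t => w ∉ t.1)).eq_empty_or_nonempty with he | ⟨t, ht⟩
      · rw [he, Finset.sum_empty]
        by_cases hτ : 0 ≤ tau n p
        · exact Finset.sum_nonneg fun t _ =>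
            mul_nonneg (Ex_nonneg hp0 hp1 fun G => hT0 _ _ _) hτ
        · have hall : ∀ x y : Fin n, x = y := fun x y => by
            by_contra hxy
            exact hτ (hτ0 x y hxy)
          have : tau n p = 0 := by
            unfold tau
            rw [dif_neg]
            intro hn
            have := hall ⟨0, by omega⟩ ⟨1, by omega⟩
            simp at this
          exact absurd this.ge hτ
      · rw [Finset.mem_filter, hTs, Finset.mem_filter, Finset.mem_sdiff] at ht
        have hτ := hτ0 t.2.2 w (fun h => ht.2 (h ▸ ht.1.2.1))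
        exact Finset.sum_le_sum_of_subset_of_nonneg (Finset.filter_subset _ _)
          fun t _ _ => mul_nonneg (Ex_nonneg hp0 hp1 fun G => hT0 _ _ _) hτ
    _ = Ex n p (fun G => ∑ t ∈ Ts, T t.1 t.2.1 G) * tau n p := by
      rw [Ex_sum, Finset.sum_mul]
    _ = Ex n p (fun G => f G * (sph G v r).card) * tau n p := by
      simp only [hsum]

end Q154.KT.ONE
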